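import Pool.Agent.H15Cubo
set_option autoImplicit false

/-!
The supremum of `δ` over all `π/6`-cap packings is `(κ/2)(1 - √3/2)`, where `κ` is the maximum number of points
of a packing, and `κ ∈ {12, 13}` is proved here.
-/
namespace Pool.Agent.Results.MP_bdc619_co.DensityValue

open Pool.Agent.H15Cap

/-- There is a number `κ`, equal to `12` or `13`, such that `κ` is the maximum number of points of a
`π/6`-cap packing, every packing `U` satisfies `δ(U) ≤ (κ/2)(1 - √3/2)`, and every packing with exactly `κ`
points attains this value. In particular `δ(U) ≤ (13/2)(1 - √3/2) < 0.871` for every packing. -/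
theorem result :
    (∃ κ : ℕ, (κ = 12 ∨ κ = 13) ∧
      (∃ V : Finset E3, IsPacking V ∧ V.card = κ) ∧
      (∀ W : Finset E3, IsPacking W → W.card ≤ κ) ∧
      (∀ U : Finset E3, IsPacking U → delta U ≤ κ / 2 * (1 - Real.sqrt 3 / 2)) ∧
      (∀ V : Finset E3, IsPacking V → V.card = κ → delta V = κ / 2 * (1 - Real.sqrt 3 / 2))) ∧
    (∀ U : Finset E3, IsPacking U → delta U < 871 / 1000) := by
  constructor
  · obtain ⟨V, hV, hmax⟩ := exists_max 13 H15Kiss.card_le_13
    refine ⟨V.card, ?_, ⟨V, hV, rfl⟩, hmax, ?_, ?_⟩
    · have h1 := hmax _ H15Cubo.cubo_packing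
      rw [H15Cubo.cubo_card] at h1
      have h2 := H15Kiss.card_le_13 V hV
      omega
    · intro U hU
      exact delta_le_of_bound V.card hmax U hU
    · intro W hW hc
      have := (delta_le W hW (fun X hX => by rw [hc]; exact hmax X hX)).2
      rw [this, hc]
  · intro U hU
    have h1 := delta_le_of_bound 13 H15Kiss.card_le_13 U hU
    have h2 : (1.7320508 : ℝ) < Real.sqrt 3 := by
      apply Real.lt_sqrt_of_sq_lt; norm_num
    push_cast at h1
    norm_num at h1 h2 ⊢
    linarith

end Pool.Agent.Results.MP_bdc619_co.DensityValue
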