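import Mathlib
import Pool.Agent.H15Cubo
import Pool.Agent.H15K12b
import Pool.Agent.H15Meas
set_option autoImplicit false

/-!
`δ(U) ≤ 6 (1 - √3/2)` for every `π/6`-cap packing, with equality for 12 points.
-/
namespace Pool.Agent.Results.MP_bdc619_co.FullBound

open Pool.Agent.H15Cap
open scoped MeasureTheory

/-- For every `π/6`-cap packing `U` one has `δ(U) ≤ 6 (1 - √3/2)`, with equality for every packing with 12 points;
12 is the largest number of points of a packing and it is attained, so the value is the maximum of `δ`.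
The same inequality holds with the two-dimensional Hausdorff measure in place of `sarea`, for every finite set of
unit vectors whose open caps of radius `π/6` are pairwise disjoint. -/
theorem result :
    (∀ U : Finset E3, IsPacking U → delta U ≤ 6 * (1 - Real.sqrt 3 / 2)) ∧
    (∀ U : Finset E3, IsPacking U → U.card = 12 → delta U = 6 * (1 - Real.sqrt 3 / 2)) ∧
    (∀ U : Finset E3, IsPacking U → U.card ≤ 12) ∧
    (∃ U : Finset E3, IsPacking U ∧ U.card = 12) ∧
    (∀ T : Finset E3, (∀ u ∈ T, ‖u‖ = 1) →
      (↑T : Set E3).PairwiseDisjoint (fun u => cap u (Real.pi / 6)) →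
      (∑ u ∈ T, ((μH[2] : MeasureTheory.Measure E3) (cap u (Real.pi / 6))).toReal) /
        ((μH[2] : MeasureTheory.Measure E3) (⋃ u ∈ T, cap u (Real.pi / 3))).toReal ≤ 6 * (1 - Real.sqrt 3 / 2)) := by
  refine ⟨?_, ?_, H15Kiss.card_le_12, ⟨H15Cubo.cubo, H15Cubo.cubo_packing, H15Cubo.cubo_card⟩, H15Meas.main⟩
  · intro U hU
    have h := delta_le_of_bound 12 H15Kiss.card_le_12 U hU
    norm_num at h ⊢
    linarith
  · intro U hU hc
    have h := (delta_le U hU (fun W hW => by rw [hc]; exact H15Kiss.card_le_12 W hW)).2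
    rw [h, hc]
    norm_num

end Pool.Agent.Results.MP_bdc619_co.FullBound
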