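import Mathlib
set_option autoImplicit false

/-!
Averaging over rotations: among all packings of caps of angular radius `π/6` on the unit sphere, the
density `δ` is maximised by the packings with the maximum number of caps.
-/
namespace Pool.Agent.Results.MP_bdc619_co.MaximumPackings

open MeasureTheory Set
open scoped ENNReal

/-- Euclidean 3-space. -/
abbrev E3 := EuclideanSpace ℝ (Fin 3)

/-- Surface area on the unit sphere: three times the volume of the cone (with apex `0`, inside the unit ball)
over a set. It is concentrated on the unit sphere. -/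
noncomputable def sarea : Measure E3 :=
  (3 : ℝ≥0∞) • Measure.map (fun x : E3 => ‖x‖⁻¹ • x) (volume.restrict (Metric.ball (0 : E3) 1))

/-- The open spherical cap with centre `u` and angular radius `ρ`. -/
def cap (u : E3) (ρ : ℝ) : Set E3 := {x | ‖x‖ = 1 ∧ InnerProductGeometry.angle u x < ρ}

/-- A finite set of unit vectors, any two distinct ones at angular distance at least `π/3`. -/
def IsPacking (U : Finset E3) : Prop :=
  (∀ u ∈ U, ‖u‖ = 1) ∧ ∀ u ∈ U, ∀ v ∈ U, u ≠ v → Real.pi / 3 ≤ InnerProductGeometry.angle u v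

/-- The density `δ(U)`: total area of the caps of radius `π/6` divided by the area of the union of the
caps of radius `π/3`. -/
noncomputable def delta (U : Finset E3) : ℝ :=
  (∑ u ∈ U, (sarea (cap u (Real.pi / 6))).toReal) / (sarea (⋃ u ∈ U, cap u (Real.pi / 3))).toReal

/-- The orthogonal group, as unitary operators. -/
noncomputable abbrev G3 := unitary (E3 →L[ℝ] E3)

instance : ContinuousStar (E3 →L[ℝ] E3) := ⟨(ContinuousLinearMap.adjoint (𝕜 := ℝ) (E := E3) (F := E3)).continuous⟩

/-- The action of the orthogonal group. -/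
noncomputable def act (g : G3) (x : E3) : E3 := (g : E3 →L[ℝ] E3) x

theorem act_mul (g h : G3) (x : E3) : act (g * h) x = act g (act h x) := by
  unfold act
  simp

theorem act_one (x : E3) : act 1 x = x := by
  unfold act; simp

theorem act_norm (g : G3) (x : E3) : ‖act g x‖ = ‖x‖ := g.val.norm_map_of_mem_unitary g.property x

theorem act_angle (g : G3) (x y : E3) :
    InnerProductGeometry.angle (act g x) (act g y) = InnerProductGeometry.angle x y := by
  have := (Unitary.linearIsometryEquiv g).toLinearIsometry.angle_map x y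
  exact this

instance : CompactSpace G3 := by
  apply isCompact_iff_compactSpace.mp
  apply Metric.isCompact_of_isClosed_isBounded
  · exact isClosed_unitary
  · rw [Metric.isBounded_iff_subset_closedBall 0]
    refine ⟨1, ?_⟩
    intro u hu
    rw [mem_closedBall_zero_iff]
    exact (CStarRing.norm_of_mem_unitary hu).le

theorem act_cont : Continuous (fun p : G3 × E3 => act p.1 p.2) := by
  unfold act
  exact (continuous_subtype_val.comp continuous_fst).clm_apply continuous_snd

theorem act_trans (x y : E3) (h : ‖x‖ = ‖y‖) : ∃ g : G3, act g x = y := by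
  refine ⟨Unitary.linearIsometryEquiv.symm (Submodule.reflection (ℝ ∙ (x - y))ᗮ), ?_⟩
  exact Submodule.reflection_sub h

theorem nrm_meas : Measurable (fun x : E3 => ‖x‖⁻¹ • x) := by
  fun_prop

theorem act_meas (g : G3) : Measurable (act g) := by
  unfold act
  exact (g : E3 →L[ℝ] E3).continuous.measurable

theorem sarea_map (g : G3) : Measure.map (act g) sarea = sarea := by
  unfold sarea
  rw [Measure.map_smul, Measure.map_map (act_meas g) nrm_meas]
  congr 1
  have h1 : (act g ∘ fun x : E3 => ‖x‖⁻¹ • x) = (fun x : E3 => ‖x‖⁻¹ • x) ∘ act g := by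
    funext x
    simp only [Function.comp]
    rw [act_norm]
    unfold act
    rw [map_smul]
  rw [h1, ← Measure.map_map nrm_meas (act_meas g)]
  congr 1
  have h2 : MeasurePreserving (act g) (volume : Measure E3) volume :=
    (Unitary.linearIsometryEquiv g).measurePreserving
  have h3 : act g ⁻¹' (Metric.ball (0 : E3) 1) = Metric.ball (0 : E3) 1 := by
    ext x
    simp only [Set.mem_preimage, mem_ball_zero_iff, act_norm]
  have h4 := (h2.restrict_preimage (s := Metric.ball (0 : E3) 1) Metric.isOpen_ball.measurableSet).map_eq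
  rw [h3] at h4
  exact h4

theorem sarea_ae : ∀ᵐ x ∂sarea, ‖x‖ = 1 := by
  unfold sarea
  refine Measure.ae_smul_measure ?_ _
  rw [ae_map_iff nrm_meas.aemeasurable (measurableSet_eq_fun measurable_norm measurable_const)]
  apply ae_restrict_of_ae
  have : ∀ᵐ x : E3 ∂volume, x ≠ 0 := by
    rw [ae_iff]
    simp
  filter_upwards [this] with x hx
  rw [norm_smul, norm_inv, norm_norm]
  exact inv_mul_cancel₀ (norm_ne_zero_iff.mpr hx)

instance : IsFiniteMeasure (volume.restrict (Metric.ball (0 : E3) 1)) :=
  ⟨by rw [Measure.restrict_apply_univ]; exact measure_ball_lt_top⟩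

instance : IsFiniteMeasure sarea := by
  unfold sarea
  exact Measure.smul_finite _ (by norm_num)

theorem sarea_univ_ne : sarea univ ≠ 0 := by
  unfold sarea
  rw [Measure.smul_apply, Measure.map_apply nrm_meas MeasurableSet.univ, preimage_univ, Measure.restrict_apply_univ]
  simp only [smul_eq_mul, ne_eq, mul_eq_zero, not_or]
  exact ⟨by norm_num, (Metric.measure_ball_pos volume _ one_pos).ne'⟩

/-- Haar measure. -/
noncomputable def mu : Measure G3 := Measure.haar

instance : mu.IsMulLeftInvariant := by unfold mu; infer_instance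
instance : IsFiniteMeasure mu := by unfold mu; infer_instance

theorem mu_univ_ne : mu univ ≠ 0 := by
  unfold mu
  exact (isOpen_univ.measure_pos _ ⟨1, mem_univ _⟩).ne'

theorem ind_meas (R : Set E3) (hR : MeasurableSet R) :
    Measurable (fun p : E3 × G3 => R.indicator (1 : E3 → ℝ≥0∞) (act p.2⁻¹ p.1)) := by
  have h1 : Continuous (fun p : E3 × G3 => act p.2⁻¹ p.1) :=
    act_cont.comp ((continuous_snd.inv).prodMk continuous_fst)
  exact (measurable_one.indicator hR).comp h1.measurable

theorem h_const (R : Set E3) (x y : E3) (hxy : ‖x‖ = ‖y‖) :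
    ∫⁻ g, R.indicator (1 : E3 → ℝ≥0∞) (act g⁻¹ x) ∂mu = ∫⁻ g, R.indicator (1 : E3 → ℝ≥0∞) (act g⁻¹ y) ∂mu := by
  obtain ⟨k, rfl⟩ := act_trans x y hxy
  have h := lintegral_mul_left_eq_self (μ := mu) (fun g => R.indicator (1 : E3 → ℝ≥0∞) (act g⁻¹ x)) k⁻¹
  rw [← h]
  apply lintegral_congr
  intro g
  rw [mul_inv_rev, inv_inv, act_mul]

theorem avg (R : Set E3) (hR : MeasurableSet R) :
    ∫⁻ x, (∫⁻ g, R.indicator (1 : E3 → ℝ≥0∞) (act g⁻¹ x) ∂mu) ∂sarea = sarea R * mu univ := by
  rw [lintegral_lintegral_swap (ind_meas R hR).aemeasurable]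
  have : ∀ g : G3, ∫⁻ x, R.indicator (1 : E3 → ℝ≥0∞) (act g⁻¹ x) ∂sarea = sarea R := by
    intro g
    have h1 : ∫⁻ x, R.indicator (1 : E3 → ℝ≥0∞) (act g⁻¹ x) ∂sarea =
        ∫⁻ x, R.indicator (1 : E3 → ℝ≥0∞) x ∂(Measure.map (act g⁻¹) sarea) := by
      rw [lintegral_map (measurable_one.indicator hR) (act_meas _)]
    rw [h1, sarea_map, lintegral_indicator_one hR]
  rw [lintegral_congr this, lintegral_const]

theorem avg' (R : Set E3) (hR : MeasurableSet R) (v : E3) (hv : ‖v‖ = 1) :
    (∫⁻ g, R.indicator (1 : E3 → ℝ≥0∞) (act g⁻¹ v) ∂mu) * sarea univ = sarea R * mu univ := by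
  rw [← avg R hR, ← lintegral_const]
  apply lintegral_congr_ae
  filter_upwards [sarea_ae] with x hx
  exact h_const R v x (by rw [hv, hx])

/-- The part of the sphere not covered by the caps of radius `π/3`. -/
def rest (U : Finset E3) : Set E3 :=
  {x | ‖x‖ = 1 ∧ ∀ u ∈ U, Real.pi / 3 ≤ InnerProductGeometry.angle u x}

theorem angle_meas (u : E3) : Measurable (fun x : E3 => InnerProductGeometry.angle u x) := by
  unfold InnerProductGeometry.angle
  fun_prop

theorem cap_meas (u : E3) (ρ : ℝ) : MeasurableSet (cap u ρ) := by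
  unfold cap
  exact (measurableSet_eq_fun measurable_norm measurable_const).inter
    (measurableSet_lt (angle_meas u) measurable_const)

theorem rest_meas (U : Finset E3) : MeasurableSet (rest U) := by
  have : rest U = {x | ‖x‖ = 1} ∩ ⋂ u ∈ U, {x | Real.pi / 3 ≤ InnerProductGeometry.angle u x} := by
    ext x
    simp [rest]
  rw [this]
  refine (measurableSet_eq_fun measurable_norm measurable_const).inter ?_
  exact Finset.measurableSet_biInter _ (fun u _ => measurableSet_le measurable_const (angle_meas u))

/-- Any rotated copy of a packing `V` meets the uncovered region of `U` in few points. -/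
theorem count (U V : Finset E3) (hU : IsPacking U) (hV : IsPacking V) (N : ℕ)
    (hN : ∀ W : Finset E3, IsPacking W → W.card ≤ N) (g : G3) :
    (∑ v ∈ V, (rest U).indicator (1 : E3 → ℝ≥0∞) (act g⁻¹ v)) + U.card ≤ N := by
  classical
  have h1 : (∑ v ∈ V, (rest U).indicator (1 : E3 → ℝ≥0∞) (act g⁻¹ v)) =
      ((V.filter (fun v => act g⁻¹ v ∈ rest U)).card : ℝ≥0∞) := by
    rw [Finset.card_filter]
    push_cast
    apply Finset.sum_congr rfl
    intro v _
    rw [indicator_apply]
    split_ifs <;> simp
  rw [h1]
  have hinj : Function.Injective (act g⁻¹) := by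
    intro x y hxy
    have h2 : act g (act g⁻¹ x) = act g (act g⁻¹ y) := by rw [hxy]
    rw [← act_mul, ← act_mul, mul_inv_cancel, act_one, act_one] at h2
    exact h2
  set A := (V.filter (fun v => act g⁻¹ v ∈ rest U)).image (act g⁻¹) with hA
  have hAcard : A.card = (V.filter (fun v => act g⁻¹ v ∈ rest U)).card :=
    Finset.card_image_of_injective _ hinj
  have hmemA : ∀ x ∈ A, x ∈ rest U ∧ ∃ v ∈ V, act g⁻¹ v = x := by
    intro x hx
    rw [hA, Finset.mem_image] at hx
    obtain ⟨v, hv, rfl⟩ := hx
    rw [Finset.mem_filter] at hv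
    exact ⟨hv.2, v, hv.1, rfl⟩
  have hdisj : Disjoint A U := by
    rw [Finset.disjoint_left]
    intro x hx hxU
    obtain ⟨hr, -⟩ := hmemA x hx
    have h3 := hr.2 x hxU
    have h4 : x ≠ 0 := by
      intro h0
      have := hr.1
      rw [h0, norm_zero] at this
      exact zero_ne_one this
    rw [InnerProductGeometry.angle_self h4] at h3
    have := Real.pi_pos
    linarith
  have hpack : IsPacking (A ∪ U) := by
    constructor
    · intro x hx
      rcases Finset.mem_union.mp hx with h | h
      · exact (hmemA x h).1.1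
      · exact hU.1 x h
    · intro x hx y hy hxy
      rcases Finset.mem_union.mp hx with h | h <;> rcases Finset.mem_union.mp hy with h' | h'
      · obtain ⟨-, v, hv, rfl⟩ := hmemA x h
        obtain ⟨-, w, hw, rfl⟩ := hmemA y h'
        rw [act_angle]
        exact hV.2 v hv w hw (fun h5 => hxy (by rw [h5]))
      · rw [InnerProductGeometry.angle_comm]
        exact (hmemA x h).1.2 y h'
      · exact (hmemA y h').1.2 x h
      · exact hU.2 x h y h' hxy
  have h6 := hN _ hpack
  rw [Finset.card_union_of_disjoint hdisj, hAcard] at h6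
  exact_mod_cast h6

/-- The key inequality: the uncovered region is small. -/
theorem key (U V : Finset E3) (hU : IsPacking U) (hV : IsPacking V)
    (hmax : ∀ W : Finset E3, IsPacking W → W.card ≤ V.card) :
    (V.card : ℝ≥0∞) * sarea (rest U) + U.card * sarea univ ≤ V.card * sarea univ := by
  have h1 : ∀ v ∈ V, (∫⁻ g, (rest U).indicator (1 : E3 → ℝ≥0∞) (act g⁻¹ v) ∂mu) * sarea univ =
      sarea (rest U) * mu univ := fun v hv => avg' _ (rest_meas U) v (hV.1 v hv)
  have h2 : (∑ v ∈ V, (∫⁻ g, (rest U).indicator (1 : E3 → ℝ≥0∞) (act g⁻¹ v) ∂mu)) + U.card * mu univ ≤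
      V.card * mu univ := by
    rw [← lintegral_finsetSum]
    · rw [← lintegral_const, ← lintegral_const, ← lintegral_add_right _ measurable_const]
      exact lintegral_mono (fun g => count U V hU hV V.card hmax g)
    · intro v _
      have := (ind_meas (rest U) (rest_meas U)).comp (measurable_const.prodMk measurable_id : Measurable (fun g : G3 => ((v : E3), g)))
      exact this
  have h3 : (∑ v ∈ V, (∫⁻ g, (rest U).indicator (1 : E3 → ℝ≥0∞) (act g⁻¹ v) ∂mu)) * sarea univ =
      V.card * (sarea (rest U) * mu univ) := by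
    rw [Finset.sum_mul, Finset.sum_congr rfl h1, Finset.sum_const, nsmul_eq_mul]
  have h4 := mul_le_mul_left h2 (sarea univ)
  rw [add_mul, h3] at h4
  have h5 : ((V.card : ℝ≥0∞) * sarea (rest U) + U.card * sarea univ) * mu univ ≤
      (V.card * sarea univ) * mu univ := by
    calc _ = V.card * (sarea (rest U) * mu univ) + U.card * mu univ * sarea univ := by ring
      _ ≤ _ := h4
      _ = _ := by ring
  exact (ENNReal.mul_le_mul_iff_left mu_univ_ne (measure_ne_top _ _)).mp h5

theorem cap_eq (u v : E3) (hu : ‖u‖ = 1) (hv : ‖v‖ = 1) (ρ : ℝ) : sarea (cap u ρ) = sarea (cap v ρ) := by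
  obtain ⟨g, rfl⟩ := act_trans u v (by rw [hu, hv])
  have h : (Measure.map (act g) sarea) (cap (act g u) ρ) = sarea (cap (act g u) ρ) := by rw [sarea_map]
  rw [Measure.map_apply (act_meas g) (cap_meas _ _)] at h
  rw [← h]
  congr 1
  ext x
  simp only [cap, mem_ofPred_eq, mem_preimage, act_norm, act_angle]

theorem sphere_area : sarea {x : E3 | ‖x‖ = 1} = sarea univ :=
  measure_congr (Filter.eventuallyEq_univ.mpr sarea_ae)

theorem union_rest (U : Finset E3) :
    sarea (⋃ u ∈ U, cap u (Real.pi / 3)) + sarea (rest U) = sarea univ := by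
  rw [← measure_union _ (rest_meas U), ← sphere_area]
  · congr 1
    ext x
    simp only [mem_union, mem_iUnion, cap, rest, mem_ofPred_eq, exists_prop]
    constructor
    · rintro (⟨u, -, h, -⟩ | ⟨h, -⟩) <;> exact h
    · intro h
      by_cases h' : ∀ u ∈ U, Real.pi / 3 ≤ InnerProductGeometry.angle u x
      · exact Or.inr ⟨h, h'⟩
      · push Not at h'
        obtain ⟨u, hu, hlt⟩ := h'
        exact Or.inl ⟨u, hu, h, hlt⟩
  · rw [Set.disjoint_left]
    intro x hx hr
    simp only [mem_iUnion, cap, mem_ofPred_eq, exists_prop] at hx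
    obtain ⟨u, hu, -, hlt⟩ := hx
    exact absurd (hr.2 u hu) (not_le.mpr hlt)

theorem S_pos : 0 < (sarea univ).toReal :=
  ENNReal.toReal_pos sarea_univ_ne (measure_ne_top _ _)

/-- The union of the caps of radius `π/3` covers at least the fraction `|U| / N` of the sphere. -/
theorem cover_real (U V : Finset E3) (hU : IsPacking U) (hV : IsPacking V)
    (hmax : ∀ W : Finset E3, IsPacking W → W.card ≤ V.card) :
    (U.card : ℝ) * (sarea univ).toReal ≤ V.card * (sarea (⋃ u ∈ U, cap u (Real.pi / 3))).toReal := by
  have h1 := key U V hU hV hmax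
  have h2 := union_rest U
  have h3 : (sarea (⋃ u ∈ U, cap u (Real.pi / 3))).toReal + (sarea (rest U)).toReal = (sarea univ).toReal := by
    rw [← ENNReal.toReal_add (measure_ne_top _ _) (measure_ne_top _ _), h2]
  have h4 : (V.card : ℝ) * (sarea (rest U)).toReal + U.card * (sarea univ).toReal ≤
      V.card * (sarea univ).toReal := by
    have h5 := ENNReal.toReal_mono (ENNReal.mul_ne_top (ENNReal.natCast_ne_top _) (measure_ne_top _ _)) h1
    rw [ENNReal.toReal_add (ENNReal.mul_ne_top (ENNReal.natCast_ne_top _) (measure_ne_top _ _))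
      (ENNReal.mul_ne_top (ENNReal.natCast_ne_top _) (measure_ne_top _ _)), ENNReal.toReal_mul,
      ENNReal.toReal_mul, ENNReal.toReal_mul, ENNReal.toReal_natCast, ENNReal.toReal_natCast] at h5
    exact h5
  nlinarith [h3, h4]

theorem sum_caps (U : Finset E3) (hU : IsPacking U) (v : E3) (hv : ‖v‖ = 1) :
    ∑ u ∈ U, (sarea (cap u (Real.pi / 6))).toReal = U.card * (sarea (cap v (Real.pi / 6))).toReal := by
  rw [Finset.sum_congr rfl (fun u hu => by rw [cap_eq u v (hU.1 u hu) hv]), Finset.sum_const, nsmul_eq_mul]

/-- A packing of maximum cardinality: its caps of radius `π/3` cover the sphere. -/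
theorem rest_max (V : Finset E3) (hV : IsPacking V)
    (hmax : ∀ W : Finset E3, IsPacking W → W.card ≤ V.card) : rest V = ∅ := by
  classical
  rw [Set.eq_empty_iff_forall_notMem]
  intro x hx
  have hxV : x ∉ V := by
    intro h
    have h3 := hx.2 x h
    have h4 : x ≠ 0 := by
      intro h0
      have := hx.1
      rw [h0, norm_zero] at this
      exact zero_ne_one this
    rw [InnerProductGeometry.angle_self h4] at h3
    have := Real.pi_pos
    linarith
  have hp : IsPacking (insert x V) := by
    constructor
    · intro u hu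
      rcases Finset.mem_insert.mp hu with rfl | h
      · exact hx.1
      · exact hV.1 u h
    · intro u hu w hw huw
      rcases Finset.mem_insert.mp hu with rfl | h <;> rcases Finset.mem_insert.mp hw with rfl | h'
      · exact absurd rfl huw
      · rw [InnerProductGeometry.angle_comm]; exact hx.2 w h'
      · exact hx.2 u h
      · exact hV.2 u h w h' huw
  have := hmax _ hp
  rw [Finset.card_insert_of_notMem hxV] at this
  omega

/-- Let `V` be a packing with the maximum number of points (any number of points of a packing is at most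
`|V|`). Then (i) the caps of radius `π/3` about any packing `U` cover at least the fraction `|U| / |V|` of
the sphere, (ii) `δ(U) ≤ δ(V)` for every packing `U`, and (iii) `δ(V)` is `|V|` times the fraction of the
sphere occupied by one cap of radius `π/6`. -/
theorem result (V : Finset E3) (hV : IsPacking V)
    (hmax : ∀ W : Finset E3, IsPacking W → W.card ≤ V.card) :
    (∀ U : Finset E3, IsPacking U →
      (U.card : ℝ) * (sarea {x : E3 | ‖x‖ = 1}).toReal ≤
        V.card * (sarea (⋃ u ∈ U, cap u (Real.pi / 3))).toReal) ∧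
    (∀ U : Finset E3, IsPacking U → delta U ≤ delta V) ∧
    (∀ v : E3, ‖v‖ = 1 →
      delta V = V.card * ((sarea (cap v (Real.pi / 6))).toReal / (sarea {x : E3 | ‖x‖ = 1}).toReal)) := by
  rw [sphere_area]
  have hd : ∀ v : E3, ‖v‖ = 1 →
      delta V = V.card * ((sarea (cap v (Real.pi / 6))).toReal / (sarea univ).toReal) := by
    intro v hv
    unfold delta
    rw [sum_caps V hV v hv]
    have h := union_rest V
    rw [rest_max V hV hmax, measure_empty, add_zero] at h
    rw [h, mul_div_assoc]
  refine ⟨fun U hU => cover_real U V hU hV hmax, fun U hU => ?_, hd⟩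
  obtain ⟨v, hv⟩ : ∃ v : E3, ‖v‖ = 1 := ⟨EuclideanSpace.single 0 1, by simp⟩
  rw [hd v hv]
  unfold delta
  rw [sum_caps U hU v hv]
  have hS := S_pos
  have hc := cover_real U V hU hV hmax
  have hC : 0 ≤ (sarea (cap v (Real.pi / 6))).toReal := ENNReal.toReal_nonneg
  rcases Nat.eq_zero_or_pos U.card with h0 | h0
  · rw [h0]
    simp only [Nat.cast_zero, zero_mul, zero_div]
    positivity
  · have h0' : (0 : ℝ) < U.card := by exact_mod_cast h0
    have hW : 0 < (sarea (⋃ u ∈ U, cap u (Real.pi / 3))).toReal := by
      by_contra hcon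
      have hW0 : (sarea (⋃ u ∈ U, cap u (Real.pi / 3))).toReal = 0 :=
        le_antisymm (not_lt.mp hcon) ENNReal.toReal_nonneg
      rw [hW0, mul_zero] at hc
      have := mul_pos h0' hS
      linarith
    rw [← mul_div_assoc, div_le_div_iff₀ hW hS]
    nlinarith [mul_le_mul_of_nonneg_right hc hC]

end Pool.Agent.Results.MP_bdc619_co.MaximumPackings
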